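import Mathlib

/-! # The combinatorics at a point -/

set_option autoImplicit false

namespace Pool.Agent.Y315.RE

variable {ι : Type} [Fintype ι] [DecidableEq ι] [Nonempty ι]

/-- a family of sets closed under unions and not containing the whole set misses a point -/
theorem exists_out (β : Finset ι → ℝ) (hu : β Finset.univ ≤ 0)
    (hc : ∀ S S' : Finset ι, S.Nonempty → S'.Nonempty → 0 < β S → 0 < β S' →
      0 < β (S ∪ S')) :
    ∃ j, ∀ S : Finset ι, j ∈ S → β S ≤ 0 := by
  by_contra hcon
  push Not at hcon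
  choose S hS hS' using hcon
  have key : ∀ T : Finset ι, T.Nonempty → 0 < β (T.biUnion S) := by
    intro T hT
    induction hT using Finset.Nonempty.cons_induction with
    | singleton i => simpa using hS' i
    | cons i T hi hT ih =>
      rw [Finset.cons_eq_insert, Finset.biUnion_insert]
      obtain ⟨t, ht⟩ := hT
      exact hc _ _ ⟨i, hS i⟩ ⟨t, Finset.mem_biUnion.2 ⟨t, ht, hS t⟩⟩ (hS' i) ih
  have h1 := key Finset.univ Finset.univ_nonempty
  have h2 : Finset.univ.biUnion S = Finset.univ := by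
    ext j
    simp only [Finset.mem_biUnion, Finset.mem_univ, true_and, iff_true]
    exact ⟨j, hS j⟩
  rw [h2] at h1
  exact absurd h1 (not_lt.2 hu)

/-- The combinatorial lemma: `δ S` and `β S A B` stand for the densities of the Laplacians of
`v S` and of `min (v S) (max (v A - v B) 0)`. -/
theorem comb (δ : Finset ι → ℝ) (β : Finset ι → Finset ι → Finset ι → ℝ)
    (h0 : δ Finset.univ ≤ 0)
    (h1 : ∀ A B : Finset ι, A.Nonempty → B.Nonempty → β Finset.univ A B ≤ 0)
    (h2 : ∀ S A B : Finset ι, S.Nonempty → A.Nonempty → B.Nonempty →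
      ¬ (0 < δ S - β S A B - β S B A ∧ 0 < (δ A - δ (A ∪ B)) - β S A B ∧
        0 < (δ B - δ (A ∪ B)) - β S B A))
    (h3 : ∀ S S' A B : Finset ι, S.Nonempty → S'.Nonempty → A.Nonempty → B.Nonempty →
      ¬ (0 < β S A B - β (S ∪ S') A B ∧ 0 < β S' A B - β (S ∪ S') A B ∧
        0 < δ B - δ (A ∪ B))) :
    ∃ j k, ∀ S : Finset ι, j ∈ S → k ∈ S → δ S ≤ 0 := by
  by_cases hcase : ∃ A B : Finset ι, A.Nonempty ∧ B.Nonempty ∧ 0 < δ A - δ (A ∪ B) ∧
      0 < δ B - δ (A ∪ B)
  · obtain ⟨A, B, hA, hB, a1, a2⟩ := hcase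
    obtain ⟨j, hj⟩ := exists_out (fun S => β S A B) (h1 A B hA hB)
      (fun S S' hS hS' e1 e2 => by
        by_contra hcon
        exact h3 S S' A B hS hS' hA hB ⟨by linarith, by linarith, a2⟩)
    obtain ⟨k, hk⟩ := exists_out (fun S => β S B A) (h1 B A hB hA)
      (fun S S' hS hS' e1 e2 => by
        by_contra hcon
        refine h3 S S' B A hS hS' hB hA ⟨by linarith, by linarith, ?_⟩
        rw [Finset.union_comm]; exact a1)
    refine ⟨j, k, fun S hjS hkS => ?_⟩
    have e1 := hj S hjS
    have e2 := hk S hkS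

    by_contra hcon
    exact h2 S A B ⟨j, hjS⟩ hA hB ⟨by linarith, by linarith, by linarith⟩
  · push Not at hcase
    obtain ⟨j, hj⟩ := exists_out δ h0 (fun S S' hS hS' e1 e2 => by
      by_contra hcon
      have := hcase S S' hS hS' (by linarith)
      linarith)
    exact ⟨j, j, fun S hS _ => hj S hS⟩

end Pool.Agent.Y315.RE
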