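import Pool.Agent.Helper486.TP.Final

/-! # Densities of distributional Laplacians and three disjoint functions -/

set_option autoImplicit false

open MeasureTheory Set Filter Topology Metric
open scoped InnerProductSpace ContDiff Laplacian ENNReal

namespace Pool.Agent.Y315.RE

open Pool.Agent.Helper486.TP

variable {n : ℕ} {U Ω : Set (E n)} {φ : E n → ℝ} {ξ : Measure (E n)}

/-- the distributional Laplacian of `f` on `U` is the signed measure with density `d` with
respect to `ξ` -/
structure Dens (U : Set (E n)) (ξ : Measure (E n)) (f d : E n → ℝ) : Prop where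
  int : LocallyIntegrableOn f U
  meas : Measurable d
  dint : Integrable d ξ
  lap : ∀ φ, TestOn U φ → ∫ x, f x * (Δ φ) x = ∫ x, φ x * d x ∂ξ

theorem Dens.add [IsFiniteMeasure ξ] {f g d e : E n → ℝ} (hf : Dens U ξ f d)
    (hg : Dens U ξ g e) :
    Dens U ξ (fun x => f x + g x) (fun x => d x + e x) where
  int := hf.int.add hg.int
  meas := hf.meas.add hg.meas
  dint := hf.dint.add hg.dint
  lap := fun φ hφ => by
    have h1 : ∫ x, (f x + g x) * (Δ φ) x =
      (∫ x, f x * (Δ φ) x) + ∫ x, g x * (Δ φ) x := by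
      rw [← integral_add (hφ.integrable_lap_loc hf.int) (hφ.integrable_lap_loc hg.int)]
      exact integral_congr_ae (Eventually.of_forall fun x => by ring)
    have h2 : ∫ x, φ x * (d x + e x) ∂ξ = (∫ x, φ x * d x ∂ξ) + ∫ x, φ x * e x ∂ξ := by
      rw [← integral_add (sing_int hφ ξ hf.dint) (sing_int hφ ξ hg.dint)]
      exact integral_congr_ae (Eventually.of_forall fun x => by ring)
    rw [h1, h2, hf.lap φ hφ, hg.lap φ hφ]

theorem Dens.sub [IsFiniteMeasure ξ] {f g d e : E n → ℝ} (hf : Dens U ξ f d)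
    (hg : Dens U ξ g e) :
    Dens U ξ (fun x => f x - g x) (fun x => d x - e x) where
  int := hf.int.sub hg.int
  meas := hf.meas.sub hg.meas
  dint := hf.dint.sub hg.dint
  lap := fun φ hφ => by
    have h1 : ∫ x, (f x - g x) * (Δ φ) x =
      (∫ x, f x * (Δ φ) x) - ∫ x, g x * (Δ φ) x := by
      rw [← integral_sub (hφ.integrable_lap_loc hf.int) (hφ.integrable_lap_loc hg.int)]
      exact integral_congr_ae (Eventually.of_forall fun x => by ring)
    have h2 : ∫ x, φ x * (d x - e x) ∂ξ = (∫ x, φ x * d x ∂ξ) - ∫ x, φ x * e x ∂ξ := by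
      rw [← integral_sub (sing_int hφ ξ hf.dint) (sing_int hφ ξ hg.dint)]
      exact integral_congr_ae (Eventually.of_forall fun x => by ring)
    rw [h1, h2, hf.lap φ hφ, hg.lap φ hφ]

/-- the measure with density `max g 0` -/
noncomputable def wd (ξ : Measure (E n)) (g : E n → ℝ) : Measure (E n) :=
  ξ.withDensity (fun x => ENNReal.ofReal (max (g x) 0))

theorem posp {g : E n → ℝ} (hg : Integrable g ξ) : Integrable (fun x => max (g x) 0) ξ :=
  hg.pos_part

theorem negp {g : E n → ℝ} (hg : Integrable g ξ) : Integrable (fun x => max (-g x) 0) ξ :=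
  hg.neg.pos_part

theorem wd_fin {g : E n → ℝ} (hg : Integrable g ξ) : IsFiniteMeasure (wd ξ g) :=
  isFiniteMeasure_withDensity_ofReal hg.pos_part.2

theorem wd_int [IsFiniteMeasure ξ] {g : E n → ℝ} (hg : Measurable g) (f : E n → ℝ) :
    ∫ x, f x ∂(wd ξ g) = ∫ x, f x * max (g x) 0 ∂ξ :=
  sing_wd ξ (hg.max measurable_const) (fun x => le_max_right _ _) f

theorem wd_set {g : E n → ℝ} (hgi : Integrable g ξ) {B : Set (E n)} (hB : MeasurableSet B) :
    (wd ξ g B).toReal = ∫ x in B, max (g x) 0 ∂ξ := by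
  unfold wd
  rw [withDensity_apply _ hB, integral_eq_lintegral_of_nonneg_ae
    (f := fun x => max (g x) 0) (Eventually.of_forall fun x => le_max_right _ _)
    (posp hgi).integrableOn.aestronglyMeasurable]

theorem int_split [IsFiniteMeasure ξ] {g : E n → ℝ} (hg : Measurable g) (hgi : Integrable g ξ)
    (hφ : TestOn U φ) :
    (∫ x, φ x ∂(wd ξ g)) - (∫ x, φ x ∂(wd ξ (fun x => -g x))) = ∫ x, φ x * g x ∂ξ := by
  rw [wd_int hg, wd_int (g := fun x => -g x) hg.neg, ← integral_sub (sing_int hφ ξ (posp hgi))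
    (sing_int hφ ξ (negp hgi))]
  refine integral_congr_ae (Eventually.of_forall fun x => ?_)
  simp only
  rcases le_total 0 (g x) with h | h
  · rw [max_eq_left h, max_eq_right (by linarith)]; ring
  · rw [max_eq_right h, max_eq_left (by linarith)]; ring

theorem set_split {g : E n → ℝ} (hgi : Integrable g ξ) {B : Set (E n)} (hB : MeasurableSet B) :
    (wd ξ g B).toReal - (wd ξ (fun x => -g x) B).toReal = ∫ x in B, g x ∂ξ := by
  rw [wd_set hgi hB, wd_set (g := fun x => -g x) hgi.neg hB,
    ← integral_sub (posp hgi).integrableOn (negp hgi).integrableOn]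
  refine integral_congr_ae (Eventually.of_forall fun x => ?_)
  simp only
  rcases le_total 0 (g x) with h | h
  · rw [max_eq_left h, max_eq_right (by linarith)]; ring
  · rw [max_eq_right h, max_eq_left (by linarith)]; ring

/-- comparison of densities -/
theorem dens_le [IsFiniteMeasure ξ] (hU : IsOpen U) {d e : E n → ℝ} (hd : Measurable d)
    (hdi : Integrable d ξ) (he : Measurable e) (hei : Integrable e ξ)
    (h : ∀ φ, TestOn U φ → (∀ x, 0 ≤ φ x) → ∫ x, φ x * d x ∂ξ ≤ ∫ x, φ x * e x ∂ξ) :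
    ∀ᵐ x ∂ξ, x ∈ U → d x ≤ e x := by
  rw [← ae_restrict_iff' hU.measurableSet]
  refine ae_le_of_forall_setIntegral_le hdi.integrableOn hei.integrableOn ?_
  intro C hC _
  rw [Measure.restrict_restrict hC]
  have := wd_fin hdi
  have := wd_fin hei
  have := wd_fin hdi.neg
  have := wd_fin hei.neg
  have h1 : (wd ξ d + wd ξ (fun x => -e x)) (C ∩ U) ≤
      (wd ξ e + wd ξ (fun x => -d x)) (C ∩ U) := by
    have i1 : IsFiniteMeasure (wd ξ (fun x => -e x)) := wd_fin hei.neg
    have i2 : IsFiniteMeasure (wd ξ (fun x => -d x)) := wd_fin hdi.neg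
    refine le_of_test hU (fun φ hφ hφ0 => ?_) (hC.inter hU.measurableSet) inter_subset_right
    rw [integral_add_measure (hφ.integrable _) (hφ.integrable _),
      integral_add_measure (hφ.integrable _) (hφ.integrable _)]
    have a1 := int_split hd hdi hφ
    have a2 := int_split he hei hφ
    have := h φ hφ hφ0
    linarith
  have i1 : IsFiniteMeasure (wd ξ (fun x => -e x)) := wd_fin hei.neg
  have i2 : IsFiniteMeasure (wd ξ (fun x => -d x)) := wd_fin hdi.neg
  rw [Measure.add_apply, Measure.add_apply] at h1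
  have h2 := ENNReal.toReal_mono (by simp [measure_ne_top]) h1
  rw [ENNReal.toReal_add (measure_ne_top _ _) (measure_ne_top _ _),
    ENNReal.toReal_add (measure_ne_top _ _) (measure_ne_top _ _)] at h2
  have b1 := set_split hdi (hC.inter hU.measurableSet)
  have b2 := set_split hei (hC.inter hU.measurableSet)
  linarith

/-- three pairwise disjoint nonnegative functions -/
theorem dens_triple [IsFiniteMeasure ξ] (hn : 0 < n) (hU : IsOpen U) {f d : Fin 3 → E n → ℝ}
    (h : ∀ k, Dens U ξ (f k) (d k)) (h0 : ∀ k x, 0 ≤ f k x)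
    (hd : ∀ i j, i ≠ j → ∀ x, f i x = 0 ∨ f j x = 0) :
    ∀ᵐ x ∂ξ, x ∈ U → ¬ (0 < d 0 x ∧ 0 < d 1 x ∧ 0 < d 2 x) := by
  obtain ⟨s, hs⟩ : ∃ s : E n → ℝ, s = fun x => min (d 0 x) (min (d 1 x) (d 2 x)) := ⟨_, rfl⟩
  have hsm : Measurable s := by
    rw [hs]; exact (h 0).meas.min ((h 1).meas.min (h 2).meas)
  have hsi : Integrable s ξ := by
    rw [hs]; exact (h 0).dint.inf ((h 1).dint.inf (h 2).dint)
  have hsd : ∀ k x, s x ≤ d k x := by
    intro k x
    rw [hs]
    fin_cases k
    · exact min_le_left _ _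
    · exact (min_le_right _ _).trans (min_le_left _ _)
    · exact (min_le_right _ _).trans (min_le_right _ _)
  have i1 : IsFiniteMeasure (wd ξ s) := wd_fin hsi
  have i2 : IsFiniteMeasure (wd ξ (fun x => -s x)) := wd_fin hsi.neg
  have j1 : ∀ k, IsFiniteMeasure (wd ξ (d k)) := fun k => wd_fin (h k).dint
  have j2 : ∀ k, IsFiniteMeasure (wd ξ (fun x => -d k x)) := fun k => wd_fin (h k).dint.neg
  have key : ∀ B K : Set (E n), MeasurableSet B → IsCompact K → B ⊆ K → K ⊆ U →
      ∫ x in B, s x ∂ξ ≤ 0 := by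
    intro B K hB hK hBK hKU
    have h1 := claim_loc hn hU (fun k => (h k).int)
      (fun k => Eventually.of_forall fun x _ => h0 k x)
      (fun i j hij => Eventually.of_forall fun x _ => hd i j hij x)
      (wd ξ s) (wd ξ (fun x => -s x)) (fun k => wd ξ (d k)) (fun k => wd ξ (fun x => -d k x))
      (fun K _ _ => measure_lt_top _ K) (fun K _ _ => measure_lt_top _ K)
      (fun k K _ _ => measure_lt_top _ K) (fun k K _ _ => measure_lt_top _ K)
      (fun k φ hφ => by rw [int_split (h k).meas (h k).dint hφ]; exact (h k).lap φ hφ)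
      (fun k φ hφ hφ0 => by
        rw [int_split (h k).meas (h k).dint hφ, int_split hsm hsi hφ]
        refine integral_mono (sing_int hφ ξ hsi) (sing_int hφ ξ (h k).dint) fun x => ?_
        exact mul_le_mul_of_nonneg_left (hsd k x) (hφ0 x)) hB hK hBK hKU
    have h2 := ENNReal.toReal_mono (measure_ne_top _ _) h1
    have h3 := set_split hsi hB
    linarith
  have hloc : ∀ K : Set (E n), IsCompact K → K ⊆ U → ∀ᵐ x ∂(ξ.restrict K), s x ≤ 0 := by
    intro K hK hKU
    refine ae_le_of_forall_setIntegral_le hsi.integrableOn (integrable_zero _ _ _) ?_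
    intro C hC _
    rw [Measure.restrict_restrict hC]
    have := key (C ∩ K) K (hC.inter hK.measurableSet) hK inter_subset_right hKU
    simpa using this
  have hnull : ξ (U ∩ {x | 0 < s x}) = 0 := by
    refine measure_null_of_locally_null _ fun x hx => ?_
    obtain ⟨K, hK, hxK, hKU⟩ := exists_compact_subset hU hx.1
    refine ⟨(U ∩ {x | 0 < s x}) ∩ K, inter_mem_nhdsWithin _ (mem_interior_iff_mem_nhds.1 hxK), ?_⟩
    have h1 := hloc K hK hKU
    rw [ae_restrict_iff' hK.measurableSet] at h1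
    refine measure_mono_null (fun y hy => ?_) h1
    intro h2
    exact absurd (h2 hy.2) (not_le.2 hy.1.2)
  filter_upwards [measure_eq_zero_iff_ae_notMem.1 hnull] with x hx hxU hc
  refine hx ⟨hxU, ?_⟩
  show 0 < s x
  rw [hs]
  exact lt_min hc.1 (lt_min hc.2.1 hc.2.2)

/-- the three functions as separate arguments -/
theorem dens_triple' [IsFiniteMeasure ξ] (hn : 0 < n) (hU : IsOpen U)
    {f g h d e k : E n → ℝ} (hf : Dens U ξ f d) (hg : Dens U ξ g e) (hh : Dens U ξ h k)
    (hf0 : ∀ x, 0 ≤ f x) (hg0 : ∀ x, 0 ≤ g x) (hh0 : ∀ x, 0 ≤ h x)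
    (h1 : ∀ x, f x = 0 ∨ g x = 0) (h2 : ∀ x, f x = 0 ∨ h x = 0)
    (h3 : ∀ x, g x = 0 ∨ h x = 0) :
    ∀ᵐ x ∂ξ, x ∈ U → ¬ (0 < d x ∧ 0 < e x ∧ 0 < k x) := by
  have := dens_triple (ξ := ξ) hn hU (f := ![f, g, h]) (d := ![d, e, k])
    (by intro i; fin_cases i; exacts [hf, hg, hh])
    (by intro i; fin_cases i; exacts [hf0, hg0, hh0])
    (by
      intro i j hij x
      fin_cases i <;> fin_cases j
      · exact absurd rfl hij
      · exact h1 x
      · exact h2 x
      · exact (h1 x).symm
      · exact absurd rfl hij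
      · exact h3 x
      · exact (h2 x).symm
      · exact (h3 x).symm
      · exact absurd rfl hij)
  exact this

/-- existence of densities for a finite family -/
theorem exists_dens {T : Type} [Finite T] {f : T → E n → ℝ}
    (hf : ∀ t, ∃ P N, HasLap Ω (f t) P N) {lp ln : Measure (E n)} (hlp : FinOn Ω lp)
    (hln : FinOn Ω ln) {L : Set (E n)} (hL : IsCompact L) (hLΩ : L ⊆ Ω) :
    ∃ (ξ : Measure (E n)) (d : T → E n → ℝ) (l : E n → ℝ), IsFiniteMeasure ξ ∧
      (∀ t, Dens (interior L) ξ (f t) (d t)) ∧ Measurable l ∧ Integrable l ξ ∧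
      ∀ φ, TestOn (interior L) φ → (∫ x, φ x ∂lp) - (∫ x, φ x ∂ln) = ∫ x, φ x * l x ∂ξ := by
  choose P N h using hf
  have hint : interior L ⊆ L := interior_subset
  have hLm : MeasurableSet L := hL.measurableSet
  have f1 := hlp.isFinite hL hLΩ
  have f2 := hln.isFinite hL hLΩ
  have f3 := fun t => (h t).finP.isFinite hL hLΩ
  have f4 := fun t => (h t).finN.isFinite hL hLΩ
  obtain ⟨ξ, hξ⟩ : ∃ ξ : Measure (E n), ξ = (lp.restrict L + ln.restrict L) +
      (Measure.sum (fun t => (P t).restrict L) + Measure.sum (fun t => (N t).restrict L)) :=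
    ⟨_, rfl⟩
  have hfin : ∀ M : T → Measure (E n), (∀ t, IsFiniteMeasure (M t)) →
      IsFiniteMeasure (Measure.sum M) := by
    intro M hM
    have := Fintype.ofFinite T
    rw [Measure.sum_fintype]
    infer_instance
  have i1 := hfin _ f3
  have i2 := hfin _ f4
  have hξf : IsFiniteMeasure ξ := by rw [hξ]; infer_instance
  have a1 : lp.restrict L ≪ ξ := Measure.absolutelyContinuous_of_le (by
    rw [hξ]; exact Measure.le_add_right (Measure.le_add_right le_rfl))
  have a2 : ln.restrict L ≪ ξ := Measure.absolutelyContinuous_of_le (by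
    rw [hξ]; exact Measure.le_add_right (Measure.le_add_left le_rfl))
  have a3 : ∀ t, (P t).restrict L ≪ ξ := fun t => Measure.absolutelyContinuous_of_le (by
    rw [hξ]; exact Measure.le_add_left (Measure.le_add_right (Measure.le_sum _ t)))
  have a4 : ∀ t, (N t).restrict L ≪ ξ := fun t => Measure.absolutelyContinuous_of_le (by
    rw [hξ]; exact Measure.le_add_left (Measure.le_add_left (Measure.le_sum _ t)))
  obtain ⟨b1, m1, g1, e1, -⟩ := sing_dens ξ _ a1
  obtain ⟨b2, m2, g2, e2, -⟩ := sing_dens ξ _ a2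
  choose b3 m3 g3 e3 _ using fun t => sing_dens ξ _ (a3 t)
  choose b4 m4 g4 e4 _ using fun t => sing_dens ξ _ (a4 t)
  refine ⟨ξ, fun t x => b3 t x - b4 t x, fun x => b1 x - b2 x, hξf, fun t => ?_, m1.sub m2,
    g1.sub g2, fun φ hφ => ?_⟩
  · refine ⟨(h t).int.mono_set (hint.trans hLΩ), (m3 t).sub (m4 t), (g3 t).sub (g4 t),
      fun φ hφ => ?_⟩
    rw [(h t).lap φ (hφ.mono (hint.trans hLΩ)), ← hφ.setInt hLm hint (P t),
      ← hφ.setInt hLm hint (N t), e3, e4, ← integral_sub (sing_int hφ ξ (g3 t))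
      (sing_int hφ ξ (g4 t))]
    exact integral_congr_ae (Eventually.of_forall fun x => by simp only; ring)
  · rw [← hφ.setInt hLm hint lp, ← hφ.setInt hLm hint ln, e1, e2,
      ← integral_sub (sing_int hφ ξ g1) (sing_int hφ ξ g2)]
    exact integral_congr_ae (Eventually.of_forall fun x => by simp only; ring)

end Pool.Agent.Y315.RE
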