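import Pool.Agent.Helper486.TP.Final

/-! # Quadratic functions, and the example for families which do not cover all pairs -/

set_option autoImplicit false

open MeasureTheory Set Filter Topology Metric
open scoped InnerProductSpace ContDiff Laplacian ENNReal

namespace Pool.Agent.Y315.RE

open Pool.Agent.Helper486.TP

variable {n : ℕ} {U Ω : Set (E n)} {φ : E n → ℝ}

/-- real-valued continuous functions with the sub-mean value property are subharmonic -/
theorem subh_of_real (hne : Ω.Nonempty) {f : E n → ℝ} (hf : Continuous f)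
    (hm : ∀ (x : E n) (r : ℝ), 0 < r →
      (volume (ball x r)).toReal * f x ≤ ∫ y in ball x r, f y) :
    Subharmonic Ω (fun x => ((f x : ℝ) : EReal)) where
  usc := (continuous_coe_real_ereal.comp hf).upperSemicontinuous.upperSemicontinuousOn _
  lt_top := fun x _ => EReal.coe_lt_top _
  ne_bot := by
    obtain ⟨x, hx⟩ := hne
    exact ⟨x, hx, EReal.coe_ne_bot _⟩
  submean := by
    intro x r hr _
    have hfi : IntegrableOn f (ball x r) := j14665_int hf x r
    have e1 : ∀ y, ((f y : ℝ) : EReal).toENNReal = ENNReal.ofReal (f y) := fun y => by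
      rw [EReal.toENNReal_of_ne_top (EReal.coe_ne_top _), EReal.toReal_coe]
    have e2 : ∀ y, (-((f y : ℝ) : EReal)).toENNReal = ENNReal.ofReal (-f y) := fun y => by
      rw [← EReal.coe_neg, EReal.toENNReal_of_ne_top (EReal.coe_ne_top _), EReal.toReal_coe]
    have f1 : ∫⁻ y in ball x r, ENNReal.ofReal (f y) ≠ ⊤ := by
      have := hfi.2
      refine ne_top_of_le_ne_top this.ne (lintegral_mono fun y => ?_)
      rw [← ofReal_norm_eq_enorm]
      exact ENNReal.ofReal_le_ofReal (le_abs_self _)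
    have f2 : ∫⁻ y in ball x r, ENNReal.ofReal (-f y) ≠ ⊤ := by
      have := hfi.2
      refine ne_top_of_le_ne_top this.ne (lintegral_mono fun y => ?_)
      rw [← ofReal_norm_eq_enorm]
      exact ENNReal.ofReal_le_ofReal (neg_le_abs _)
    simp only [e1, e2]
    have h1 := integral_eq_lintegral_pos_part_sub_lintegral_neg_part hfi
    have h2 := hm x r hr
    rw [h1] at h2
    have hv : volume (ball x r) ≠ ⊤ := measure_ball_lt_top.ne
    rw [← EReal.coe_ennreal_toReal hv, ← EReal.coe_ennreal_toReal f1,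
      ← EReal.coe_ennreal_toReal f2, ← EReal.coe_mul, ← EReal.coe_sub]
    exact_mod_cast h2

/-- real-valued continuous functions with the sub-mean value property are δ-subharmonic -/
theorem delta_of_real (hne : Ω.Nonempty) {f : E n → ℝ} (hf : Continuous f)
    (hm : ∀ (x : E n) (r : ℝ), 0 < r →
      (volume (ball x r)).toReal * f x ≤ ∫ y in ball x r, f y) :
    DeltaSubharmonic Ω (fun x => ((f x : ℝ) : EReal)) := by
  refine ⟨fun x => ((f x : ℝ) : EReal), fun x => (((0 : ℝ) : ℝ) : EReal), ∅,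
    subh_of_real hne hf hm, subh_of_real hne (f := fun _ => (0 : ℝ)) continuous_const
    (fun x r _ => by simp), ?_, ?_⟩
  · intro x hx
    exact absurd hx (notMem_empty x)
  · intro x _
    refine ⟨EReal.coe_ne_bot _, EReal.coe_ne_bot _, ?_⟩
    rw [← EReal.coe_sub, sub_zero]

/-- the quadratic function -/
noncomputable def qd (x₀ : E n) (a : ℝ) (x : E n) : ℝ := ‖x - x₀‖ ^ 2 - a

theorem qd_cont (x₀ : E n) (a : ℝ) : Continuous (qd x₀ a) := by
  unfold qd
  fun_prop

theorem qd_mean (x₀ : E n) (a : ℝ) (x : E n) (r : ℝ) (_hr : 0 < r) :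
    (volume (ball x r)).toReal * qd x₀ a x ≤ ∫ y in ball x r, qd x₀ a y := by
  have hlin : ∫ y in ball x r, innerSL ℝ (x - x₀) (y - x) = 0 := by
    have h1 := (measurePreserving_sub_right (volume : Measure (E n)) x).setIntegral_preimage_emb
      (MeasurableEquiv.subRight x).measurableEmbedding
      (fun z => innerSL ℝ (x - x₀) z) (ball 0 r)
    have h2 : (fun y : E n => y - x) ⁻¹' ball 0 r = ball x r := by
      ext y
      simp [dist_eq_norm]
    rw [h2] at h1
    rw [h1]
    exact j14665_lin _ r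
  have hi1 : IntegrableOn (fun y => innerSL ℝ (x - x₀) (y - x)) (ball x r) :=
    j14665_int (by fun_prop) x r
  have hi2 : IntegrableOn (fun _ : E n => qd x₀ a x) (ball x r) :=
    integrableOn_const measure_ball_lt_top.ne
  have h3 : ∫ y in ball x r, (qd x₀ a x + 2 * innerSL ℝ (x - x₀) (y - x)) =
      (volume (ball x r)).toReal * qd x₀ a x := by
    rw [integral_add hi2 (hi1.const_mul 2), integral_const_mul, hlin, setIntegral_const,
      smul_eq_mul, Measure.real]
    ring
  rw [← h3]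
  refine setIntegral_mono (hi2.add (hi1.const_mul 2)) (j14665_int (qd_cont x₀ a) x r) fun y => ?_
  simp only [innerSL_apply_apply]
  unfold qd
  have e : y - x₀ = (x - x₀) + (y - x) := by abel
  rw [e, norm_add_sq_real]
  nlinarith [sq_nonneg ‖y - x‖]

theorem qd_delta (hne : Ω.Nonempty) (x₀ : E n) (a : ℝ) :
    DeltaSubharmonic Ω (fun x => ((qd x₀ a x : ℝ) : EReal)) :=
  delta_of_real hne (qd_cont x₀ a) (qd_mean x₀ a)

theorem qd_weak (hn : 0 < n) (hΩ : IsOpen Ω) (x₀ : E n) (a : ℝ) :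
    ∀ φ, TestOn Ω φ → (∀ x, 0 ≤ φ x) → 0 ≤ ∫ x, qd x₀ a x * (Δ φ) x :=
  submean_weak hn hΩ ((qd_cont x₀ a).locallyIntegrable.locallyIntegrableOn _)
    (fun r hr => Eventually.of_forall fun x _ => qd_mean x₀ a x r hr)

theorem lap_sq (x : E n) : (Δ (fun x : E n => ‖x‖ ^ 2)) x = 2 * (n : ℝ) := by
  rw [InnerProductSpace.laplacian_eq_iteratedFDeriv_orthonormalBasis _
    (EuclideanSpace.basisFun (Fin n) ℝ)]
  have hf : fderiv ℝ (fun x : E n => ‖x‖ ^ 2) = fun x => (2 : ℝ) • innerSL ℝ x := by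
    funext x
    have := (hasStrictFDerivAt_norm_sq x).hasFDerivAt.fderiv
    rw [this]
    ext v
    simp
  have hd : ∀ v : E n, iteratedFDeriv ℝ 2 (fun x : E n => ‖x‖ ^ 2) x ![v, v] =
      2 * ‖v‖ ^ 2 := by
    intro v
    rw [iteratedFDeriv_two_apply, hf]
    have hi : HasFDerivAt (fun x : E n => (2 : ℝ) • innerSL ℝ x) ((2 : ℝ) • innerSL ℝ) x :=
      (innerSL ℝ : E n →L[ℝ] E n →L[ℝ] ℝ).hasFDerivAt.const_smul (2 : ℝ)
    rw [hi.fderiv]
    have hvv : (innerSL ℝ v) v = ‖v‖ ^ 2 := by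
      rw [innerSL_apply_apply]; exact real_inner_self_eq_norm_sq v
    simp
    exact hvv
  simp only [hd]
  simp
  ring

theorem lap_sq' (x₀ x : E n) : (Δ (fun x : E n => ‖x - x₀‖ ^ 2)) x = 2 * (n : ℝ) := by
  rw [lap_comp_sub (fun x : E n => ‖x‖ ^ 2) x₀]
  exact lap_sq _

/-- a test function on which the minimum of `0` and the quadratic function is negative -/
theorem exists_neg (hn : 0 < n) {x₀ : E n} {R : ℝ} (hR : 0 < R) (hΩ : IsOpen Ω)
    (hb : closedBall x₀ R ⊆ Ω) :
    ∃ φ, TestOn Ω φ ∧ (∀ x, 0 ≤ φ x) ∧ ∫ x, min 0 (qd x₀ (R ^ 2) x) * (Δ φ) x < 0 := by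
  obtain ⟨ζ, hζ, h1, h2⟩ := exists_test (isCompact_closedBall x₀ R) hΩ hb
  have hs : ContDiff ℝ ∞ (fun x : E n => ‖x - x₀‖ ^ 2) :=
    (contDiff_id.sub contDiff_const).norm_sq ℝ
  refine ⟨fun x => ‖x - x₀‖ ^ 2 * ζ x, hζ.mul_left hs,
    fun x => mul_nonneg (by positivity) (h2 x).1, ?_⟩
  have hlap : ∀ x ∈ ball x₀ R, (Δ (fun x => ‖x - x₀‖ ^ 2 * ζ x)) x = 2 * (n : ℝ) := by
    intro x hx
    have he : (fun x => ‖x - x₀‖ ^ 2 * ζ x) =ᶠ[𝓝 x] (fun x : E n => ‖x - x₀‖ ^ 2) := by
      filter_upwards [isOpen_ball.mem_nhds hx] with y hy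
      rw [h1 y (ball_subset_closedBall hy), mul_one]
    rw [← lap_sq' x₀ x, lap_eq, lap_eq]
    have h4 := (he.iteratedFDeriv (𝕜 := ℝ) 2).eq_of_nhds
    simp only
    rw [h4]
  obtain ⟨g, hg⟩ : ∃ g : E n → ℝ, g = fun x => -min 0 (qd x₀ (R ^ 2) x) := ⟨_, rfl⟩
  have hgc : Continuous g := by
    rw [hg]; exact (continuous_const.min (qd_cont x₀ (R ^ 2))).neg
  have hout : ∀ x, x ∉ ball x₀ R → min 0 (qd x₀ (R ^ 2) x) = 0 := by
    intro x hx
    refine min_eq_left ?_
    unfold qd
    rw [mem_ball, dist_eq_norm, not_lt] at hx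
    nlinarith
  have hgs : HasCompactSupport g := by
    refine HasCompactSupport.intro (isCompact_closedBall x₀ R) fun x hx => ?_
    rw [hg]
    simp only
    rw [hout x fun h => hx (ball_subset_closedBall h), neg_zero]
  have hg0 : 0 ≤ g := by
    intro x
    rw [hg]
    simp only [Pi.zero_apply]
    linarith [min_le_left 0 (qd x₀ (R ^ 2) x)]
  have hgx : g x₀ ≠ 0 := by
    rw [hg]
    unfold qd
    simp only [sub_self, norm_zero]
    rw [min_eq_right (by nlinarith)]
    have : 0 < R ^ 2 := by positivity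
    simp
    exact hR.ne'
  have hpos : 0 < ∫ x, g x :=
    hgc.integral_pos_of_hasCompactSupport_nonneg_nonzero hgs hg0 hgx
  have hint : ∫ x, min 0 (qd x₀ (R ^ 2) x) * (Δ (fun x => ‖x - x₀‖ ^ 2 * ζ x)) x =
      -(2 * n) * ∫ x, g x := by
    rw [← integral_const_mul]
    refine integral_congr_ae (Eventually.of_forall fun x => ?_)
    simp only
    by_cases hx : x ∈ ball x₀ R
    · rw [hlap x hx, hg]; ring
    · rw [hg]; simp only; rw [hout x hx]; simp
  rw [hint]
  have : (0 : ℝ) < n := by exact_mod_cast hn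
  nlinarith

end Pool.Agent.Y315.RE
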