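import Pool.Agent.Y315.RE.Family
import Pool.Agent.Y315.RE.Quad

/-! # Riesz measures of lower envelopes: which families of sub-envelopes suffice -/

set_option autoImplicit false

open MeasureTheory Set Filter Topology Metric
open scoped InnerProductSpace ContDiff Laplacian ENNReal

namespace Pool.Agent.Y315.RE

open Pool.Agent.Helper486.TP

variable {n : ℕ} {U Ω : Set (E n)} {φ : E n → ℝ} {m : ℕ}

theorem part_toReal (w : Fin m → E n → EReal) {S : Finset (Fin m)} (hS : S.Nonempty)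
    (hfin : ∀ᵐ x ∂(volume : Measure (E n)), ∀ j, x ∈ Ω → w j x ≠ ⊥ ∧ w j x ≠ ⊤) :
    ∀ᵐ x ∂(volume : Measure (E n)), x ∈ Ω →
      S.inf' hS (fun j => (w j x).toReal) = (⨅ j ∈ S, w j x).toReal := by
  filter_upwards [hfin] with x hx hxΩ
  rw [← toReal_inf' _ _ _ (fun j => hx j hxΩ), Finset.inf'_eq_inf, Finset.inf_eq_iInf]

theorem hfin_of (hn : 0 < n) (hΩ : IsOpen Ω) (hΩc : IsPreconnected Ω)
    {w : Fin m → E n → EReal} (hw : ∀ j, DeltaSubharmonic Ω (w j)) :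
    ∀ᵐ x ∂(volume : Measure (E n)), ∀ j, x ∈ Ω → w j x ≠ ⊥ ∧ w j x ≠ ⊤ :=
  ae_all_iff.2 fun j => (hw j).finite hn hΩ hΩc

/-- minima of δ-subharmonic functions have Riesz measures -/
theorem part_exists (hn : 0 < n) (hΩ : IsOpen Ω) (hΩc : IsPreconnected Ω)
    {w : Fin m → E n → EReal} (hw : ∀ j, DeltaSubharmonic Ω (w j)) {c : ℝ} (hc : 0 < c)
    {S : Finset (Fin m)} (hS : S.Nonempty) :
    ∃ ρ, IsRiesz c Ω (fun x => ⨅ j ∈ S, w j x) ρ := by
  obtain ⟨P, N, h⟩ := fam_hasLap hn hΩ (fun j => (hw j).exists_lap hn hΩ hΩc) S hS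
  exact (h.congr hΩ.measurableSet (part_toReal w hS (hfin_of hn hΩ hΩc hw))).isRiesz hc

/-- the integral against the Riesz measure of the minimum over `S` -/
theorem riesz_part (hn : 0 < n) (hΩ : IsOpen Ω) (hΩc : IsPreconnected Ω)
    {w : Fin m → E n → EReal} (hw : ∀ j, DeltaSubharmonic Ω (w j)) {c : ℝ} (hc : 0 < c)
    {S : Finset (Fin m)} (hS : S.Nonempty) {ρ : SignedRadon Ω}
    (hρ : IsRiesz c Ω (fun x => ⨅ j ∈ S, w j x) ρ) (hφ : TestOn Ω φ) :
    (∫ x, φ x ∂ρ.pos) - (∫ x, φ x ∂ρ.neg) =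
      ∫ x, S.inf' hS (fun j => c * (w j x).toReal) * (Δ φ) x := by
  rw [hρ.2 φ hφ.smooth hφ.cpt hφ.sub,
    ← int_congr_on (part_toReal w hS (hfin_of hn hΩ hΩc hw)) hφ, ← integral_const_mul]
  refine integral_congr_ae (Eventually.of_forall fun x => ?_)
  simp only
  have hmm : S.inf' hS (fun i => c * (w i x).toReal) =
      c * S.inf' hS (fun i => (w i x).toReal) := by
    rw [Finset.apply_inf'_eq_inf'_comp (s := S) hS (g := fun r : ℝ => c * r)
      (fun x y => mul_min_of_nonneg _ _ hc.le)]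
    rfl
  rw [hmm]; ring

/-- sufficiency of the covering condition -/
theorem cover_le (hn : 0 < n) (hΩ : IsOpen Ω) (hΩc : IsPreconnected Ω) (hm : 0 < m)
    {w : Fin m → E n → EReal} (hw : ∀ j, DeltaSubharmonic Ω (w j)) {c : ℝ} (hc : 0 < c)
    {F : Set (Finset (Fin m))} (hF : ∀ S ∈ F, S.Nonempty)
    (hcov : ∀ j k, ∃ S ∈ F, j ∈ S ∧ k ∈ S) {μ : SignedRadon Ω}
    {ρ : Finset (Fin m) → SignedRadon Ω}
    (hμ : IsRiesz c Ω (fun x => ⨅ j, w j x) μ)
    (hρ : ∀ S ∈ F, IsRiesz c Ω (fun x => ⨅ j ∈ S, w j x) (ρ S)) :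
    (∃ I, IsGLB {κ | ∃ S ∈ F, κ = ρ S} I) ∧
      ∀ I, IsGLB {κ | ∃ S ∈ F, κ = ρ S} I → I ≤ μ := by
  have : Nonempty (Fin m) := ⟨⟨0, hm⟩⟩
  constructor
  · obtain ⟨S₀, hS₀, -⟩ := hcov ⟨0, hm⟩ ⟨0, hm⟩
    have hr : {κ | ∃ S ∈ F, κ = ρ S} = ρ '' F := by
      ext κ
      constructor
      · rintro ⟨S, hS, rfl⟩
        exact ⟨S, hS, rfl⟩
      · rintro ⟨S, hS, rfl⟩
        exact ⟨S, hS, rfl⟩
    rw [hr]
    exact exists_glb_finite hΩ _ ((Set.toFinite F).image ρ) ⟨_, S₀, hS₀, rfl⟩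
  · intro I hI
    have hlapc : ∀ j, ∃ P N, HasLap Ω (fun x => c * (w j x).toReal) P N := fun j => by
      obtain ⟨P, N, h⟩ := (hw j).exists_lap hn hΩ hΩc
      exact ⟨_, _, h.const_mul hc⟩
    refine SignedRadon.le_of_int hΩ fun φ hφ hφ0 => ?_
    have hμ' : IsRiesz c Ω (fun x => ⨅ j ∈ (Finset.univ : Finset (Fin m)), w j x) μ := by
      simpa using hμ
    rw [riesz_part hn hΩ hΩc hw hc Finset.univ_nonempty hμ' hφ]
    refine fam_ineq hn hΩ hlapc I.pos_lt_top I.neg_lt_top (fun S => S ∈ F)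
      (fun j k => by
        obtain ⟨S, hS, h⟩ := hcov j k
        exact ⟨S, hS, h⟩) ?_ φ hφ hφ0
    intro S hS hSn ψ hψ hψ0
    have h1 : I ≤ ρ S := hI.1 ⟨S, hS, rfl⟩
    refine (SignedRadon.int_le h1 hψ hψ0).trans (le_of_eq ?_)
    exact riesz_part hn hΩ hΩc hw hc hSn (hρ S hS) hψ

/-- the zero measure -/
def zeroR (Ω : Set (E n)) : SignedRadon Ω :=
  ⟨0, 0, fun K _ _ => by simp, fun K _ _ => by simp⟩

/-- necessity of the covering condition -/
theorem not_cover (hn : 0 < n) (hΩ : IsOpen Ω) (hne : Ω.Nonempty) {c : ℝ} (hc : 0 < c)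
    {F : Set (Finset (Fin m))} (hF : ∀ S ∈ F, S.Nonempty) {j₀ k₀ : Fin m} (hjk : j₀ ≠ k₀)
    (hno : ∀ S ∈ F, j₀ ∈ S → k₀ ∉ S) :
    ∃ w : Fin m → E n → EReal, (∀ j, DeltaSubharmonic Ω (w j)) ∧
      ∀ (μ : SignedRadon Ω) (ρ : Finset (Fin m) → SignedRadon Ω),
        IsRiesz c Ω (fun x => ⨅ j, w j x) μ →
        (∀ S ∈ F, IsRiesz c Ω (fun x => ⨅ j ∈ S, w j x) (ρ S)) →
        ∀ I, IsGLB {κ | ∃ S ∈ F, κ = ρ S} I → ¬ I ≤ μ := by
  classical
  obtain ⟨x₀, hx₀⟩ := hne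
  obtain ⟨R, hR, hb⟩ : ∃ R > 0, closedBall x₀ R ⊆ Ω := by
    obtain ⟨e, he, h⟩ := Metric.isOpen_iff.1 hΩ x₀ hx₀
    exact ⟨e / 2, by positivity, (closedBall_subset_ball (by linarith)).trans h⟩
  obtain ⟨g, hg⟩ : ∃ g : Fin m → E n → ℝ, g = fun j x =>
    if j = j₀ then 0 else if j = k₀ then qd x₀ (R ^ 2) x else qd x₀ 0 x := ⟨_, rfl⟩
  have hgj : g j₀ = fun _ => 0 := by rw [hg]; funext x; simp
  have hgk : g k₀ = qd x₀ (R ^ 2) := by rw [hg]; funext x; simp [hjk.symm]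
  have hgo : ∀ j, j ≠ j₀ → j ≠ k₀ → g j = qd x₀ 0 := by
    intro j h1 h2; rw [hg]; funext x; simp [h1, h2]
  have hq0 : ∀ x, 0 ≤ qd x₀ 0 x := by intro x; unfold qd; rw [sub_zero]; positivity
  have hqR : ∀ x, qd x₀ (R ^ 2) x ≤ qd x₀ 0 x := by
    intro x; unfold qd; nlinarith
  have hdel : ∀ j, DeltaSubharmonic Ω (fun x => ((g j x : ℝ) : EReal)) := by
    intro j
    by_cases h1 : j = j₀
    · subst h1
      rw [hgj]
      exact delta_of_real ⟨x₀, hx₀⟩ continuous_const (fun x r _ => by simp)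
    · by_cases h2 : j = k₀
      · subst h2
        rw [hgk]
        exact qd_delta ⟨x₀, hx₀⟩ _ _
      · rw [hgo j h1 h2]
        exact qd_delta ⟨x₀, hx₀⟩ _ _
  have hinf : ∀ (S : Finset (Fin m)) (hS : S.Nonempty) (x : E n),
      (⨅ j ∈ S, ((g j x : ℝ) : EReal)).toReal = S.inf' hS (fun j => g j x) := by
    intro S hS x
    rw [← Finset.inf_eq_iInf, ← Finset.inf'_eq_inf hS,
      toReal_inf' _ _ _ (fun j => ⟨EReal.coe_ne_bot _, EReal.coe_ne_top _⟩)]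
    simp
  refine ⟨fun j x => ((g j x : ℝ) : EReal), hdel, ?_⟩
  intro μ ρ hμ hρ I hI hIμ
  -- the minimum over a member of the family
  have hmem : ∀ S ∈ F, ∀ ψ, TestOn Ω ψ → (∀ x, 0 ≤ ψ x) →
      0 ≤ ∫ x, (⨅ j ∈ S, ((g j x : ℝ) : EReal)).toReal * (Δ ψ) x := by
    intro S hS ψ hψ hψ0
    have hSn := hF S hS
    simp only [hinf S hSn]
    by_cases h1 : j₀ ∈ S
    · have h2 : k₀ ∉ S := hno S hS h1
      have e : ∀ x, S.inf' hSn (fun j => g j x) = 0 := by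
        intro x
        apply le_antisymm
        · refine (Finset.inf'_le _ h1).trans ?_
          rw [hgj]
        · refine Finset.le_inf' _ _ fun j hj => ?_
          by_cases hj1 : j = j₀
          · subst hj1; rw [hgj]
          · rw [hgo j hj1 (fun h => h2 (h ▸ hj))]
            exact hq0 x
      simp [e]
    · by_cases h2 : k₀ ∈ S
      · have e : ∀ x, S.inf' hSn (fun j => g j x) = qd x₀ (R ^ 2) x := by
          intro x
          apply le_antisymm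
          · refine (Finset.inf'_le _ h2).trans ?_
            rw [hgk]
          · refine Finset.le_inf' _ _ fun j hj => ?_
            by_cases hj1 : j = k₀
            · subst hj1; rw [hgk]
            · rw [hgo j (fun h => h1 (h ▸ hj)) hj1]
              exact hqR x
        simp only [e]
        exact qd_weak hn hΩ x₀ _ ψ hψ hψ0
      · have e : ∀ x, S.inf' hSn (fun j => g j x) = qd x₀ 0 x := by
          intro x
          obtain ⟨i, hi⟩ := hSn
          apply le_antisymm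
          · refine (Finset.inf'_le _ hi).trans ?_
            rw [hgo i (fun h => h1 (h ▸ hi)) (fun h => h2 (h ▸ hi))]
          · refine Finset.le_inf' _ _ fun j hj => ?_
            rw [hgo j (fun h => h1 (h ▸ hj)) (fun h => h2 (h ▸ hj))]
        simp only [e]
        exact qd_weak hn hΩ x₀ _ ψ hψ hψ0
  have hz : zeroR Ω ≤ I := by
    refine hI.2 ?_
    rintro κ ⟨S, hS, rfl⟩
    refine SignedRadon.le_of_int hΩ fun ψ hψ hψ0 => ?_
    rw [(hρ S hS).2 ψ hψ.smooth hψ.cpt hψ.sub]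
    have h3 := hmem S hS ψ hψ hψ0
    have h4 : (∫ x, ψ x ∂(zeroR Ω).pos) - (∫ x, ψ x ∂(zeroR Ω).neg) = 0 := by
      simp [zeroR]
    rw [h4]
    exact mul_nonneg hc.le h3
  obtain ⟨φ, hφ, hφ0, hneg⟩ := exists_neg hn hR hΩ hb
  have h5 := SignedRadon.int_le (hz.trans hIμ) hφ hφ0
  rw [hμ.2 φ hφ.smooth hφ.cpt hφ.sub] at h5
  have h4 : (∫ x, φ x ∂(zeroR Ω).pos) - (∫ x, φ x ∂(zeroR Ω).neg) = 0 := by
    simp [zeroR]
  rw [h4] at h5
  have hmin : ∀ x, (⨅ j, ((g j x : ℝ) : EReal)).toReal = min 0 (qd x₀ (R ^ 2) x) := by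
    intro x
    have h6 := hinf Finset.univ ⟨j₀, Finset.mem_univ _⟩ x
    simp only [Finset.mem_univ, iInf_pos] at h6
    rw [h6]
    apply le_antisymm
    · refine le_min ?_ ?_
      · refine (Finset.inf'_le _ (Finset.mem_univ j₀)).trans ?_
        rw [hgj]
      · refine (Finset.inf'_le _ (Finset.mem_univ k₀)).trans ?_
        rw [hgk]
    · refine Finset.le_inf' _ _ fun j _ => ?_
      by_cases hj1 : j = j₀
      · subst hj1; rw [hgj]; exact min_le_left _ _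
      · by_cases hj2 : j = k₀
        · subst hj2; rw [hgk]; exact min_le_right _ _
        · rw [hgo j hj1 hj2]
          exact (min_le_left _ _).trans (hq0 x)
  simp only [hmin] at h5
  have := mul_neg_of_pos_of_neg hc hneg
  linarith

/-- **Which families of sub-envelopes bound the Riesz measure of the lower envelope.** -/
theorem envelope_iff (hn : 0 < n) (hΩ : IsOpen Ω) (hΩc : IsPreconnected Ω)
    (hne : Ω.Nonempty) (hm : 2 ≤ m) {c : ℝ} (hc : 0 < c) (F : Set (Finset (Fin m)))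
    (hF : ∀ S ∈ F, S.Nonempty) :
    (∀ w : Fin m → E n → EReal, (∀ j, DeltaSubharmonic Ω (w j)) →
      ∀ (μ : SignedRadon Ω) (ρ : Finset (Fin m) → SignedRadon Ω),
        IsRiesz c Ω (fun x => ⨅ j, w j x) μ →
        (∀ S ∈ F, IsRiesz c Ω (fun x => ⨅ j ∈ S, w j x) (ρ S)) →
        (∃ I, IsGLB {κ | ∃ S ∈ F, κ = ρ S} I) ∧
          ∀ I, IsGLB {κ | ∃ S ∈ F, κ = ρ S} I → I ≤ μ) ↔
      ∀ j k, ∃ S ∈ F, j ∈ S ∧ k ∈ S := by
  constructor
  · intro h j k
    by_contra hcon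
    push Not at hcon
    -- a pair of distinct uncovered indices
    obtain ⟨j₀, k₀, hjk, hno⟩ : ∃ j₀ k₀ : Fin m, j₀ ≠ k₀ ∧ ∀ S ∈ F, j₀ ∈ S → k₀ ∉ S := by
      by_cases hjk : j = k
      · subst hjk
        have hcard : 1 < Fintype.card (Fin m) := by rw [Fintype.card_fin]; omega
        obtain ⟨k₁, hk₁⟩ := Fintype.exists_ne_of_one_lt_card hcard j
        exact ⟨j, k₁, hk₁.symm, fun S hS hj _ => hcon S hS hj hj⟩
      · exact ⟨j, k, hjk, hcon⟩
    obtain ⟨w, hw, hbad⟩ := not_cover hn hΩ hne hc hF hjk hno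
    obtain ⟨μ, hμ⟩ := part_exists hn hΩ hΩc hw hc
      (S := Finset.univ) ⟨j, Finset.mem_univ _⟩
    have hμ' : IsRiesz c Ω (fun x => ⨅ j, w j x) μ := by simpa using hμ
    have hex : ∀ S : Finset (Fin m), ∃ ρ : SignedRadon Ω, S ∈ F →
        IsRiesz c Ω (fun x => ⨅ j ∈ S, w j x) ρ := by
      intro S
      by_cases hS : S ∈ F
      · obtain ⟨ρ, hρ⟩ := part_exists hn hΩ hΩc hw hc (hF S hS)
        exact ⟨ρ, fun _ => hρ⟩
      · exact ⟨zeroR Ω, fun h => absurd h hS⟩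
    choose ρ hρ using hex
    obtain ⟨⟨I, hI⟩, h2⟩ := h w hw μ ρ hμ' (fun S hS => hρ S hS)
    exact hbad μ ρ hμ' (fun S hS => hρ S hS) I hI (h2 I hI)
  · intro hcov w hw μ ρ hμ hρ
    exact cover_le hn hΩ hΩc (by omega) hw hc hF hcov hμ hρ

end Pool.Agent.Y315.RE
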