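import Pool.Agent.Y315.RE.Dens
import Pool.Agent.Y315.RE.Comb

/-! # The inequality for pair-covering families -/

set_option autoImplicit false

open MeasureTheory Set Filter Topology Metric
open scoped InnerProductSpace ContDiff Laplacian ENNReal

namespace Pool.Agent.Y315.RE

open Pool.Agent.Helper486.TP

variable {n : ℕ} {U Ω : Set (E n)} {φ : E n → ℝ} {ξ : Measure (E n)}
variable {ι : Type} [Fintype ι] [DecidableEq ι] [Nonempty ι]

/-- the minimum of the whole family -/
noncomputable def uu (W : ι → E n → ℝ) (x : E n) : ℝ :=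
  Finset.univ.inf' Finset.univ_nonempty (fun i => W i x)

/-- the minimum over `S` minus the minimum of the whole family -/
noncomputable def vv (W : ι → E n → ℝ) (S : Finset ι) (x : E n) : ℝ :=
  if h : S.Nonempty then S.inf' h (fun i => W i x) - uu W x else 0

/-- the minimum of `vv W S` and `max (vv W A - vv W B) 0` -/
noncomputable def bb (W : ι → E n → ℝ) (S A B : Finset ι) (x : E n) : ℝ :=
  min (vv W S x) (vv W A x - vv W (A ∪ B) x)

theorem vv_eq (W : ι → E n → ℝ) {S : Finset ι} (h : S.Nonempty) (x : E n) :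
    vv W S x = S.inf' h (fun i => W i x) - uu W x := dif_pos h

theorem vv_nonneg (W : ι → E n → ℝ) (S : Finset ι) (x : E n) : 0 ≤ vv W S x := by
  unfold vv
  split_ifs with h
  · have : uu W x ≤ S.inf' h (fun i => W i x) :=
      Finset.inf'_mono (fun i => W i x) (Finset.subset_univ S) h
    linarith
  · exact le_rfl

theorem vv_union (W : ι → E n → ℝ) {S T : Finset ι} (hS : S.Nonempty) (hT : T.Nonempty)
    (x : E n) : vv W (S ∪ T) x = min (vv W S x) (vv W T x) := by
  rw [vv_eq W hS, vv_eq W hT, vv_eq W (hS.mono Finset.subset_union_left),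
    Finset.inf'_union hS hT, min_sub_sub_right]

theorem vv_univ (W : ι → E n → ℝ) (x : E n) : vv W Finset.univ x = 0 := by
  rw [vv_eq W Finset.univ_nonempty]
  unfold uu
  ring

/-- real numbers -/
theorem num {p q s : ℝ} (hs : 0 ≤ s) :
    0 ≤ p - min p q ∧ 0 ≤ q - min p q ∧ (p - min p q = 0 ∨ q - min p q = 0) ∧
    0 ≤ s - min s (p - min p q) - min s (q - min p q) ∧
    0 ≤ (p - min p q) - min s (p - min p q) ∧
    (s - min s (p - min p q) - min s (q - min p q) = 0 ∨
      (p - min p q) - min s (p - min p q) = 0) ∧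
    (s - min s (p - min p q) - min s (q - min p q) = 0 ∨
      (q - min p q) - min s (q - min p q) = 0) ∧
    ((p - min p q) - min s (p - min p q) = 0 ∨ (q - min p q) - min s (q - min p q) = 0) := by
  rcases le_total p q with h | h
  · rw [min_eq_left h, sub_self, min_eq_right hs]
    have h1 : 0 ≤ q - p := by linarith
    rcases le_total s (q - p) with h2 | h2
    · rw [min_eq_left h2]
      refine ⟨le_rfl, h1, Or.inl rfl, by linarith, by linarith, Or.inl (by ring),
        Or.inl (by ring), Or.inl (by ring)⟩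
    · rw [min_eq_right h2]
      refine ⟨le_rfl, h1, Or.inl rfl, by linarith, by linarith, Or.inr (by ring),
        Or.inr (by ring), Or.inl (by ring)⟩
  · rw [min_eq_right h, sub_self, min_eq_right hs]
    have h1 : 0 ≤ p - q := by linarith
    rcases le_total s (p - q) with h2 | h2
    · rw [min_eq_left h2]
      refine ⟨h1, le_rfl, Or.inr rfl, by linarith, by linarith, Or.inl (by ring),
        Or.inl (by ring), Or.inr (by ring)⟩
    · rw [min_eq_right h2]
      refine ⟨h1, le_rfl, Or.inr rfl, by linarith, by linarith, Or.inr (by ring),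
        Or.inr (by ring), Or.inr (by ring)⟩

theorem vv_hasLap (hn : 0 < n) (hΩ : IsOpen Ω) {W : ι → E n → ℝ}
    (hW : ∀ i, ∃ P N, HasLap Ω (W i) P N) (S : Finset ι) :
    ∃ P N, HasLap Ω (vv W S) P N := by
  by_cases h : S.Nonempty
  · obtain ⟨P, N, h1⟩ := fam_hasLap hn hΩ hW S h
    obtain ⟨P', N', h2⟩ := fam_hasLap hn hΩ hW Finset.univ Finset.univ_nonempty
    have e : vv W S = fun x => S.inf' h (fun i => W i x) -
        Finset.univ.inf' Finset.univ_nonempty (fun i => W i x) := by
      funext x; exact vv_eq W h x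
    rw [e]
    exact ⟨_, _, h1.sub' h2⟩
  · have e : vv W S = fun _ => 0 := by
      funext x; exact dif_neg h
    obtain ⟨i⟩ := ‹Nonempty ι›
    obtain ⟨P, N, h1⟩ := hW i
    rw [e]
    have h2 := h1.sub' h1
    refine ⟨_, _, (?_ : HasLap Ω (fun _ => 0) (P + N) (N + P))⟩
    simpa using h2

theorem bb_hasLap (hn : 0 < n) (hΩ : IsOpen Ω) {W : ι → E n → ℝ}
    (hW : ∀ i, ∃ P N, HasLap Ω (W i) P N) (S A B : Finset ι) :
    ∃ P N, HasLap Ω (bb W S A B) P N := by
  obtain ⟨P₁, N₁, h1⟩ := vv_hasLap hn hΩ hW S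
  obtain ⟨P₂, N₂, h2⟩ := vv_hasLap hn hΩ hW A
  obtain ⟨P₃, N₃, h3⟩ := vv_hasLap hn hΩ hW (A ∪ B)
  exact h1.exists_min hn hΩ (h2.sub' h3)

/-- the four kinds of triples, at almost every point -/
theorem point (hn : 0 < n) (hU : IsOpen U) [IsFiniteMeasure ξ] (W : ι → E n → ℝ)
    {δ : Finset ι → E n → ℝ} {β : Finset ι → Finset ι → Finset ι → E n → ℝ}
    (hδ : ∀ S, Dens U ξ (vv W S) (δ S)) (hβ : ∀ S A B, Dens U ξ (bb W S A B) (β S A B)) :
    ∀ᵐ x ∂ξ, x ∈ U → ∃ j k, ∀ S : Finset ι, j ∈ S → k ∈ S → δ S x ≤ 0 := by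
  have h0 : ∀ᵐ x ∂ξ, x ∈ U → δ Finset.univ x ≤ 0 := by
    have e : ∀ x, vv W Finset.univ x = 0 := vv_univ W
    have := dens_triple' hn hU (hδ Finset.univ) (hδ Finset.univ) (hδ Finset.univ)
      (fun x => (e x).ge) (fun x => (e x).ge) (fun x => (e x).ge) (fun x => Or.inl (e x))
      (fun x => Or.inl (e x)) (fun x => Or.inl (e x))
    filter_upwards [this] with x hx hxU
    by_contra hcon
    push Not at hcon
    exact hx hxU ⟨hcon, hcon, hcon⟩
  have h1 : ∀ᵐ x ∂ξ, ∀ A B : Finset ι, x ∈ U → A.Nonempty → B.Nonempty →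
      β Finset.univ A B x ≤ 0 := by
    refine ae_all_iff.2 fun A => ae_all_iff.2 fun B => ?_
    by_cases hA : A.Nonempty
    swap
    · exact Eventually.of_forall fun x _ h => absurd h hA
    by_cases hB : B.Nonempty
    swap
    · exact Eventually.of_forall fun x _ _ h => absurd h hB
    have e : ∀ x, bb W Finset.univ A B x = 0 := by
      intro x
      unfold bb
      rw [vv_univ, vv_union W hA hB]
      exact min_eq_left (num (p := vv W A x) (q := vv W B x) (s := 0) le_rfl).1
    have := dens_triple' hn hU (hβ Finset.univ A B) (hβ Finset.univ A B) (hβ Finset.univ A B)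
      (fun x => (e x).ge) (fun x => (e x).ge) (fun x => (e x).ge) (fun x => Or.inl (e x))
      (fun x => Or.inl (e x)) (fun x => Or.inl (e x))
    filter_upwards [this] with x hx hxU _ _
    by_contra hcon
    push Not at hcon
    exact hx hxU ⟨hcon, hcon, hcon⟩
  have h2 : ∀ᵐ x ∂ξ, ∀ S A B : Finset ι, x ∈ U → S.Nonempty → A.Nonempty → B.Nonempty →
      ¬ (0 < δ S x - β S A B x - β S B A x ∧ 0 < (δ A x - δ (A ∪ B) x) - β S A B x ∧
        0 < (δ B x - δ (A ∪ B) x) - β S B A x) := by
    refine ae_all_iff.2 fun S => ae_all_iff.2 fun A => ae_all_iff.2 fun B => ?_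
    by_cases hA : A.Nonempty
    swap
    · exact Eventually.of_forall fun x _ _ h => absurd h hA
    by_cases hB : B.Nonempty
    swap
    · exact Eventually.of_forall fun x _ _ _ h => absurd h hB
    have e1 : ∀ x, bb W S A B x =
        min (vv W S x) (vv W A x - min (vv W A x) (vv W B x)) := by
      intro x; unfold bb; rw [vv_union W hA hB]
    have e2 : ∀ x, bb W S B A x =
        min (vv W S x) (vv W B x - min (vv W A x) (vv W B x)) := by
      intro x; unfold bb; rw [vv_union W hB hA, min_comm (vv W B x)]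
    have e3 : ∀ x, vv W (A ∪ B) x = min (vv W A x) (vv W B x) := fun x => vv_union W hA hB x
    have key := fun x => num (p := vv W A x) (q := vv W B x) (s := vv W S x) (vv_nonneg W S x)
    have key' := fun x => num (p := vv W B x) (q := vv W A x) (s := vv W S x) (vv_nonneg W S x)
    have := dens_triple' hn hU
      (((hδ S).sub (hβ S A B)).sub (hβ S B A))
      (((hδ A).sub (hδ (A ∪ B))).sub (hβ S A B))
      (((hδ B).sub (hδ (A ∪ B))).sub (hβ S B A))
      (fun x => by rw [e1, e2]; exact (key x).2.2.2.1)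
      (fun x => by rw [e1, e3]; exact (key x).2.2.2.2.1)
      (fun x => by rw [e2, e3, min_comm (vv W A x)]; exact (key' x).2.2.2.2.1)
      (fun x => by rw [e1, e2, e3]; exact (key x).2.2.2.2.2.1)
      (fun x => by rw [e1, e2, e3]; exact (key x).2.2.2.2.2.2.1)
      (fun x => by rw [e1, e2, e3]; exact (key x).2.2.2.2.2.2.2)
    filter_upwards [this] with x hx hxU _ _ _
    exact hx hxU
  have h3 : ∀ᵐ x ∂ξ, ∀ S S' A B : Finset ι, x ∈ U → S.Nonempty → S'.Nonempty → A.Nonempty →
      B.Nonempty →
      ¬ (0 < β S A B x - β (S ∪ S') A B x ∧ 0 < β S' A B x - β (S ∪ S') A B x ∧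
        0 < δ B x - δ (A ∪ B) x) := by
    refine ae_all_iff.2 fun S => ae_all_iff.2 fun S' => ae_all_iff.2 fun A =>
      ae_all_iff.2 fun B => ?_
    by_cases hS : S.Nonempty
    swap
    · exact Eventually.of_forall fun x _ h => absurd h hS
    by_cases hS' : S'.Nonempty
    swap
    · exact Eventually.of_forall fun x _ _ h => absurd h hS'
    by_cases hA : A.Nonempty
    swap
    · exact Eventually.of_forall fun x _ _ _ h => absurd h hA
    by_cases hB : B.Nonempty
    swap
    · exact Eventually.of_forall fun x _ _ _ _ h => absurd h hB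
    have e3 : ∀ x, vv W (A ∪ B) x = min (vv W A x) (vv W B x) := fun x => vv_union W hA hB x
    have e4 : ∀ x, bb W (S ∪ S') A B x = min (bb W S A B x) (bb W S' A B x) := by
      intro x; unfold bb; rw [vv_union W hS hS']
      exact inf_inf_distrib_right _ _ _
    have key := fun x => num (p := vv W A x) (q := vv W B x) (s := vv W S x) (vv_nonneg W S x)
    have hz : ∀ T : Finset ι, ∀ x, vv W A x - vv W (A ∪ B) x = 0 → bb W T A B x = 0 := by
      intro T x hx
      unfold bb
      rw [hx]
      exact min_eq_right (vv_nonneg W T x)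
    have h4 : ∀ T : Finset ι, ∀ x, bb W T A B x = 0 ∨ vv W B x - vv W (A ∪ B) x = 0 := by
      intro T x
      rcases (key x).2.2.1 with h | h
      · left; exact hz T x (by rw [e3]; exact h)
      · right; rw [e3]; exact h
    have := dens_triple' hn hU
      ((hβ S A B).sub (hβ (S ∪ S') A B)) ((hβ S' A B).sub (hβ (S ∪ S') A B))
      ((hδ B).sub (hδ (A ∪ B)))
      (fun x => by rw [e4]; linarith [min_le_left (bb W S A B x) (bb W S' A B x)])
      (fun x => by rw [e4]; linarith [min_le_right (bb W S A B x) (bb W S' A B x)])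
      (fun x => by rw [e3]; exact (key x).2.1)
      (fun x => by
        rw [e4]
        rcases le_total (bb W S A B x) (bb W S' A B x) with h | h
        · left; rw [min_eq_left h]; ring
        · right; rw [min_eq_right h]; ring)
      (fun x => by
        rcases (key x).2.2.1 with h | h
        · left; rw [hz S x (by rw [e3]; exact h), hz (S ∪ S') x (by rw [e3]; exact h)]; ring
        · right; rw [e3]; exact h)
      (fun x => by
        rcases (key x).2.2.1 with h | h
        · left; rw [hz S' x (by rw [e3]; exact h), hz (S ∪ S') x (by rw [e3]; exact h)]; ring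
        · right; rw [e3]; exact h)
    filter_upwards [this] with x hx hxU _ _ _ _
    exact hx hxU
  filter_upwards [h0, h1, h2, h3] with x g0 g1 g2 g3 hxU
  exact comb (fun S => δ S x) (fun S A B => β S A B x) (g0 hxU) (fun A B => g1 A B hxU)
    (fun S A B => g2 S A B hxU) (fun S S' A B => g3 S S' A B hxU)

/-- The inequality for a pair-covering family of index sets. -/
theorem fam_ineq (hn : 0 < n) (hΩ : IsOpen Ω) {W : ι → E n → ℝ}
    (hW : ∀ i, ∃ P N, HasLap Ω (W i) P N) {lp ln : Measure (E n)} (hlp : FinOn Ω lp)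
    (hln : FinOn Ω ln) (F : Finset ι → Prop) (hcov : ∀ j k, ∃ S, F S ∧ j ∈ S ∧ k ∈ S)
    (h : ∀ S, F S → ∀ hS : S.Nonempty, ∀ φ, TestOn Ω φ → (∀ x, 0 ≤ φ x) →
      (∫ x, φ x ∂lp) - (∫ x, φ x ∂ln) ≤ ∫ x, S.inf' hS (fun i => W i x) * (Δ φ) x) :
    ∀ φ, TestOn Ω φ → (∀ x, 0 ≤ φ x) →
      (∫ x, φ x ∂lp) - (∫ x, φ x ∂ln) ≤
        ∫ x, Finset.univ.inf' Finset.univ_nonempty (fun i => W i x) * (Δ φ) x := by
  intro φ hφ hφ0
  obtain ⟨L, hL, hKL, hLΩ⟩ := exists_compact_between hφ.cpt.isCompact hΩ hφ.sub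
  have hLm : MeasurableSet L := hL.measurableSet
  have hint : interior L ⊆ L := interior_subset
  let T : Type := Option (Finset ι ⊕ (Finset ι × Finset ι × Finset ι))
  let f : T → E n → ℝ := fun t => match t with
    | none => uu W
    | some (Sum.inl S) => vv W S
    | some (Sum.inr (S, A, B)) => bb W S A B
  have hf : ∀ t, ∃ P N, HasLap Ω (f t) P N := by
    intro t
    match t with
    | none => exact fam_hasLap hn hΩ hW Finset.univ Finset.univ_nonempty
    | some (Sum.inl S) => exact vv_hasLap hn hΩ hW S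
    | some (Sum.inr (S, A, B)) => exact bb_hasLap hn hΩ hW S A B
  obtain ⟨ξ, d, l, hξ, hd, hlm, hli, hl⟩ := exists_dens hf hlp hln hL hLΩ
  have hδ : ∀ S, Dens (interior L) ξ (vv W S) (d (some (Sum.inl S))) :=
    fun S => hd (some (Sum.inl S))
  have hβ : ∀ S A B, Dens (interior L) ξ (bb W S A B) (d (some (Sum.inr (S, A, B)))) :=
    fun S A B => hd (some (Sum.inr (S, A, B)))
  have he : Dens (interior L) ξ (uu W) (d none) := hd none
  have hpt := point hn isOpen_interior W hδ hβ
  have hle : ∀ᵐ x ∂ξ, ∀ S : Finset ι, x ∈ interior L → F S → S.Nonempty →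
      l x ≤ d (some (Sum.inl S)) x + d none x := by
    refine ae_all_iff.2 fun S => ?_
    by_cases hS : F S
    swap
    · exact Eventually.of_forall fun x _ h => absurd h hS
    by_cases hSn : S.Nonempty
    swap
    · exact Eventually.of_forall fun x _ _ h => absurd h hSn
    have hsum := (hδ S).add he
    have := dens_le isOpen_interior hlm hli hsum.meas hsum.dint (fun ψ hψ hψ0 => by
      rw [← hl ψ hψ, ← hsum.lap ψ hψ]
      refine (h S hS hSn ψ (hψ.mono (hint.trans hLΩ)) hψ0).trans (le_of_eq ?_)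
      refine integral_congr_ae (Eventually.of_forall fun x => ?_)
      simp only
      rw [vv_eq W hSn]
      ring)
    filter_upwards [this] with x hx hxU _ _
    exact hx hxU
  have hφL : TestOn (interior L) φ := ⟨hφ.smooth, hφ.cpt, hKL⟩
  have h5 : ∫ x, Finset.univ.inf' Finset.univ_nonempty (fun i => W i x) * (Δ φ) x =
      ∫ x, φ x * d none x ∂ξ := he.lap φ hφL
  rw [h5, hl φ hφL]
  refine integral_mono_ae (sing_int hφL ξ hli) (sing_int hφL ξ he.dint) ?_
  filter_upwards [hpt, hle] with x h1 h2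
  by_cases hx : x ∈ interior L
  · obtain ⟨j, k, hjk⟩ := h1 hx
    obtain ⟨S, hS, hj, hk⟩ := hcov j k
    have h3 := hjk S hj hk
    have h4 := h2 S hx hS ⟨j, hj⟩
    exact mul_le_mul_of_nonneg_left (by linarith) (hφ0 x)
  · rw [hφL.eq_zero hx]; simp

end Pool.Agent.Y315.RE
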