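import Pool.Agent.Y315.RE.Family

/-! # The meet of the Laplacians of functions carried by a set system -/

set_option autoImplicit false

open MeasureTheory Set Filter Topology Metric
open scoped InnerProductSpace ContDiff Laplacian ENNReal

namespace Pool.Agent.Y315.RE

open Pool.Agent.Helper486.TP

/-- The combinatorial lemma for set systems. `δ S`, `β S A B` as in `comb`; `Z S` and
`Y S A B` say that the corresponding functions vanish identically. -/
theorem comb_sys {ι : Type} [Fintype ι] [DecidableEq ι] [Nonempty ι]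
    (δ : Finset ι → ℝ) (β : Finset ι → Finset ι → Finset ι → ℝ)
    (Z : Prop) (Y : Finset ι → Finset ι → Finset ι → Prop)
    (h0 : Z → δ Finset.univ ≤ 0) (hZ : Z)
    (h1 : ∀ S A B : Finset ι, S.Nonempty → A.Nonempty → B.Nonempty → Y S A B → β S A B ≤ 0)
    (h2 : ∀ S A B : Finset ι, S.Nonempty → A.Nonempty → B.Nonempty →
      ¬ (0 < δ S - β S A B - β S B A ∧ 0 < (δ A - δ (A ∪ B)) - β S A B ∧
        0 < (δ B - δ (A ∪ B)) - β S B A))
    (h3 : ∀ S S' A B : Finset ι, S.Nonempty → S'.Nonempty → A.Nonempty → B.Nonempty →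
      ¬ (0 < β S A B - β (S ∪ S') A B ∧ 0 < β S' A B - β (S ∪ S') A B ∧
        0 < δ B - δ (A ∪ B)))
    (hY : ∀ T T' A B : Finset ι, A.Nonempty → B.Nonempty → T ∪ T' = Finset.univ →
      (T.Nonempty → ¬ Y T A B) → (T'.Nonempty → ¬ Y T' B A) → False) :
    ∃ i, δ {i} ≤ 0 := by
  classical
  by_contra hcon
  push Not at hcon
  -- unions of positive singletons are positive
  have hun : ∀ (g : Finset ι → ℝ), (∀ S S' : Finset ι, S.Nonempty → S'.Nonempty → 0 < g S →
      0 < g S' → 0 < g (S ∪ S')) → ∀ T : Finset ι, T.Nonempty → (∀ i ∈ T, 0 < g {i}) →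
      0 < g T := by
    intro g hg T hT
    induction hT using Finset.Nonempty.cons_induction with
    | singleton i => intro h; exact h i (Finset.mem_singleton_self i)
    | cons i T hi hT ih =>
      intro h
      rw [Finset.cons_eq_insert, Finset.insert_eq]
      refine hg _ _ ⟨i, Finset.mem_singleton_self i⟩ hT (h i (Finset.mem_cons_self i T))
        (ih fun k hk => h k (Finset.mem_cons_of_mem hk))
  by_cases hcase : ∃ A B : Finset ι, A.Nonempty ∧ B.Nonempty ∧ 0 < δ A - δ (A ∪ B) ∧
      0 < δ B - δ (A ∪ B)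
  · obtain ⟨A, B, hA, hB, a1, a2⟩ := hcase
    have c1 : ∀ S S' : Finset ι, S.Nonempty → S'.Nonempty → 0 < β S A B →
        0 < β S' A B → 0 < β (S ∪ S') A B := by
      intro S S' hS hS' e1 e2
      by_contra hc
      exact h3 S S' A B hS hS' hA hB ⟨by linarith, by linarith, a2⟩
    have c2 : ∀ S S' : Finset ι, S.Nonempty → S'.Nonempty → 0 < β S B A →
        0 < β S' B A → 0 < β (S ∪ S') B A := by
      intro S S' hS hS' e1 e2
      by_contra hc
      refine h3 S S' B A hS hS' hB hA ⟨by linarith, by linarith, ?_⟩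
      rw [Finset.union_comm]; exact a1
    let T : Finset ι := Finset.univ.filter fun i => 0 < β {i} A B
    let T' : Finset ι := Finset.univ.filter fun i => 0 < β {i} B A
    have hTT : T ∪ T' = Finset.univ := by
      ext i
      simp only [T, T', Finset.mem_union, Finset.mem_filter, Finset.mem_univ, true_and, iff_true]
      by_contra hc
      push Not at hc
      have := hcon i
      exact h2 {i} A B ⟨i, Finset.mem_singleton_self i⟩ hA hB
        ⟨by linarith [hc.1, hc.2], by linarith [hc.1], by linarith [hc.2]⟩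
    refine hY T T' A B hA hB hTT (fun hT hYT => ?_) (fun hT' hYT => ?_)
    · have e1 := hun (fun S => β S A B) c1 T hT (fun i hi => by
        simpa [T] using hi)
      have e2 := h1 T A B hT hA hB hYT
      linarith
    · have e1 := hun (fun S => β S B A) c2 T' hT' (fun i hi => by
        simpa [T'] using hi)
      have e2 := h1 T' B A hT' hB hA hYT
      linarith
  · push Not at hcase
    have e1 := hun δ (fun S S' hS hS' e1 e2 => by
      by_contra hc
      have := hcase S S' hS hS' (by linarith)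
      linarith) Finset.univ Finset.univ_nonempty (fun i _ => hcon i)
    have e2 := h0 hZ
    linarith

variable {n : ℕ} {U Ω : Set (E n)} {φ : E n → ℝ} {ξ : Measure (E n)}
variable {ι : Type} [Fintype ι] [DecidableEq ι] [Nonempty ι]

/-- the pointwise conclusion for functions carried by a set system no two points of which hit all
the sets -/
theorem point_sys (hn : 0 < n) (hU : IsOpen U) [IsFiniteMeasure ξ] (v : ι → E n → ℝ)
    (hv0 : ∀ i x, 0 ≤ v i x) (D : ι → Set (E n)) (hD : ∀ i x, x ∉ D i → v i x = 0)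
    (htwo : ∀ p q : E n, ∃ i, p ∉ D i ∧ q ∉ D i)
    {δ : Finset ι → E n → ℝ} {β : Finset ι → Finset ι → Finset ι → E n → ℝ}
    (hδ : ∀ S, Dens U ξ (vv v S) (δ S)) (hβ : ∀ S A B, Dens U ξ (bb v S A B) (β S A B)) :
    ∀ᵐ x ∂ξ, x ∈ U → ∃ i, δ {i} x ≤ 0 := by
  classical
  have huu : ∀ x, uu v x = 0 := by
    intro x
    obtain ⟨i, hi, -⟩ := htwo x x
    refine le_antisymm ?_ ?_
    · exact (Finset.inf'_le _ (Finset.mem_univ i)).trans (hD i x hi).le
    · exact Finset.le_inf' _ _ fun j _ => hv0 j x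
  have hvv : ∀ (S : Finset ι), S.Nonempty → ∀ x i, i ∈ S → x ∉ D i → vv v S x = 0 := by
    intro S hS x i hi hx
    refine le_antisymm ?_ (vv_nonneg v S x)
    rw [vv_eq v hS, huu, sub_zero]
    exact (Finset.inf'_le _ hi).trans (hD i x hx).le
  have h0 : ∀ᵐ x ∂ξ, x ∈ U → δ Finset.univ x ≤ 0 := by
    have e : ∀ x, vv v Finset.univ x = 0 := vv_univ v
    have := dens_triple' hn hU (hδ Finset.univ) (hδ Finset.univ) (hδ Finset.univ)
      (fun x => (e x).ge) (fun x => (e x).ge) (fun x => (e x).ge) (fun x => Or.inl (e x))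
      (fun x => Or.inl (e x)) (fun x => Or.inl (e x))
    filter_upwards [this] with x hx hxU
    by_contra hcon
    push Not at hcon
    exact hx hxU ⟨hcon, hcon, hcon⟩
  have h1 : ∀ᵐ x ∂ξ, ∀ S A B : Finset ι, x ∈ U → S.Nonempty → A.Nonempty → B.Nonempty →
      (∀ y, bb v S A B y = 0) → β S A B x ≤ 0 := by
    refine ae_all_iff.2 fun S => ae_all_iff.2 fun A => ae_all_iff.2 fun B => ?_
    by_cases e : ∀ y, bb v S A B y = 0
    swap
    · exact Eventually.of_forall fun x _ _ _ _ h => absurd h e
    have := dens_triple' hn hU (hβ S A B) (hβ S A B) (hβ S A B)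
      (fun x => (e x).ge) (fun x => (e x).ge) (fun x => (e x).ge) (fun x => Or.inl (e x))
      (fun x => Or.inl (e x)) (fun x => Or.inl (e x))
    filter_upwards [this] with x hx hxU _ _ _ _
    by_contra hcon
    push Not at hcon
    exact hx hxU ⟨hcon, hcon, hcon⟩
  have h2 : ∀ᵐ x ∂ξ, ∀ S A B : Finset ι, x ∈ U → S.Nonempty → A.Nonempty → B.Nonempty →
      ¬ (0 < δ S x - β S A B x - β S B A x ∧ 0 < (δ A x - δ (A ∪ B) x) - β S A B x ∧
        0 < (δ B x - δ (A ∪ B) x) - β S B A x) := by
    refine ae_all_iff.2 fun S => ae_all_iff.2 fun A => ae_all_iff.2 fun B => ?_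
    by_cases hA : A.Nonempty
    swap
    · exact Eventually.of_forall fun x _ _ h => absurd h hA
    by_cases hB : B.Nonempty
    swap
    · exact Eventually.of_forall fun x _ _ _ h => absurd h hB
    have e1 : ∀ x, bb v S A B x =
        min (vv v S x) (vv v A x - min (vv v A x) (vv v B x)) := by
      intro x; unfold bb; rw [vv_union v hA hB]
    have e2 : ∀ x, bb v S B A x =
        min (vv v S x) (vv v B x - min (vv v A x) (vv v B x)) := by
      intro x; unfold bb; rw [vv_union v hB hA, min_comm (vv v B x)]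
    have e3 : ∀ x, vv v (A ∪ B) x = min (vv v A x) (vv v B x) := fun x => vv_union v hA hB x
    have key := fun x => num (p := vv v A x) (q := vv v B x) (s := vv v S x) (vv_nonneg v S x)
    have key' := fun x => num (p := vv v B x) (q := vv v A x) (s := vv v S x) (vv_nonneg v S x)
    have := dens_triple' hn hU
      (((hδ S).sub (hβ S A B)).sub (hβ S B A))
      (((hδ A).sub (hδ (A ∪ B))).sub (hβ S A B))
      (((hδ B).sub (hδ (A ∪ B))).sub (hβ S B A))
      (fun x => by rw [e1, e2]; exact (key x).2.2.2.1)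
      (fun x => by rw [e1, e3]; exact (key x).2.2.2.2.1)
      (fun x => by rw [e2, e3, min_comm (vv v A x)]; exact (key' x).2.2.2.2.1)
      (fun x => by rw [e1, e2, e3]; exact (key x).2.2.2.2.2.1)
      (fun x => by rw [e1, e2, e3]; exact (key x).2.2.2.2.2.2.1)
      (fun x => by rw [e1, e2, e3]; exact (key x).2.2.2.2.2.2.2)
    filter_upwards [this] with x hx hxU _ _ _
    exact hx hxU
  have h3 : ∀ᵐ x ∂ξ, ∀ S S' A B : Finset ι, x ∈ U → S.Nonempty → S'.Nonempty → A.Nonempty →
      B.Nonempty →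
      ¬ (0 < β S A B x - β (S ∪ S') A B x ∧ 0 < β S' A B x - β (S ∪ S') A B x ∧
        0 < δ B x - δ (A ∪ B) x) := by
    refine ae_all_iff.2 fun S => ae_all_iff.2 fun S' => ae_all_iff.2 fun A =>
      ae_all_iff.2 fun B => ?_
    by_cases hS : S.Nonempty
    swap
    · exact Eventually.of_forall fun x _ h => absurd h hS
    by_cases hS' : S'.Nonempty
    swap
    · exact Eventually.of_forall fun x _ _ h => absurd h hS'
    by_cases hA : A.Nonempty
    swap
    · exact Eventually.of_forall fun x _ _ _ h => absurd h hA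
    by_cases hB : B.Nonempty
    swap
    · exact Eventually.of_forall fun x _ _ _ _ h => absurd h hB
    have e3 : ∀ x, vv v (A ∪ B) x = min (vv v A x) (vv v B x) := fun x => vv_union v hA hB x
    have e4 : ∀ x, bb v (S ∪ S') A B x = min (bb v S A B x) (bb v S' A B x) := by
      intro x; unfold bb; rw [vv_union v hS hS']
      exact inf_inf_distrib_right _ _ _
    have key := fun x => num (p := vv v A x) (q := vv v B x) (s := vv v S x) (vv_nonneg v S x)
    have hz : ∀ T : Finset ι, ∀ x, vv v A x - vv v (A ∪ B) x = 0 → bb v T A B x = 0 := by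
      intro T x hx
      unfold bb
      rw [hx]
      exact min_eq_right (vv_nonneg v T x)
    have := dens_triple' hn hU
      ((hβ S A B).sub (hβ (S ∪ S') A B)) ((hβ S' A B).sub (hβ (S ∪ S') A B))
      ((hδ B).sub (hδ (A ∪ B)))
      (fun x => by rw [e4]; linarith [min_le_left (bb v S A B x) (bb v S' A B x)])
      (fun x => by rw [e4]; linarith [min_le_right (bb v S A B x) (bb v S' A B x)])
      (fun x => by rw [e3]; exact (key x).2.1)
      (fun x => by
        rw [e4]
        rcases le_total (bb v S A B x) (bb v S' A B x) with h | h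
        · left; rw [min_eq_left h]; ring
        · right; rw [min_eq_right h]; ring)
      (fun x => by
        rcases (key x).2.2.1 with h | h
        · left; rw [hz S x (by rw [e3]; exact h), hz (S ∪ S') x (by rw [e3]; exact h)]; ring
        · right; rw [e3]; exact h)
      (fun x => by
        rcases (key x).2.2.1 with h | h
        · left; rw [hz S' x (by rw [e3]; exact h), hz (S ∪ S') x (by rw [e3]; exact h)]; ring
        · right; rw [e3]; exact h)
    filter_upwards [this] with x hx hxU _ _ _ _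
    exact hx hxU
  -- where a minimum over `T` does not vanish identically, all the sets have a common point
  have hpt : ∀ T A B : Finset ι, A.Nonempty → B.Nonempty →
      (T.Nonempty → ¬ ∀ y, bb v T A B y = 0) → ∃ p, ∀ i ∈ T, p ∈ D i := by
    intro T A B hA hB h
    rcases T.eq_empty_or_nonempty with hT | hT
    · exact ⟨0, fun i hi => absurd hi (by simp [hT])⟩
    · have h' := h hT
      push Not at h'
      obtain ⟨p, hp⟩ := h'
      refine ⟨p, fun i hi => ?_⟩
      by_contra hpi
      apply hp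
      unfold bb
      rw [hvv T hT p i hi hpi, vv_union v hA hB]
      exact min_eq_left (num (p := vv v A p) (q := vv v B p) (s := 0) le_rfl).1
  filter_upwards [h0, h1, h2, h3] with x g0 g1 g2 g3 hxU
  refine comb_sys (fun S => δ S x) (fun S A B => β S A B x) True
    (fun S A B => ∀ y, bb v S A B y = 0) (fun _ => g0 hxU) trivial
    (fun S A B => g1 S A B hxU) (fun S A B => g2 S A B hxU) (fun S S' A B => g3 S S' A B hxU) ?_
  intro T T' A B hA hB hTT hT hT'
  obtain ⟨p, hp⟩ := hpt T A B hA hB hT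
  obtain ⟨q, hq⟩ := hpt T' B A hB hA hT'
  obtain ⟨i, hi1, hi2⟩ := htwo p q
  have : i ∈ T ∪ T' := by rw [hTT]; exact Finset.mem_univ i
  rcases Finset.mem_union.1 this with h | h
  · exact hi1 (hp i h)
  · exact hi2 (hq i h)

/-- The infimum of the Laplacians is nonpositive. -/
theorem meet_sys (hn : 0 < n) (hΩ : IsOpen Ω) {v : ι → E n → ℝ}
    (hv : ∀ i, ∃ P N, HasLap Ω (v i) P N)
    (hv0 : ∀ i x, 0 ≤ v i x) (D : ι → Set (E n)) (hD : ∀ i x, x ∉ D i → v i x = 0)
    (htwo : ∀ p q : E n, ∃ i, p ∉ D i ∧ q ∉ D i)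
    {lp ln : Measure (E n)} (hlp : FinOn Ω lp) (hln : FinOn Ω ln)
    (h : ∀ i φ, TestOn Ω φ → (∀ x, 0 ≤ φ x) →
      (∫ x, φ x ∂lp) - (∫ x, φ x ∂ln) ≤ ∫ x, v i x * (Δ φ) x) :
    ∀ φ, TestOn Ω φ → (∀ x, 0 ≤ φ x) → ∫ x, φ x ∂lp ≤ ∫ x, φ x ∂ln := by
  intro φ hφ hφ0
  obtain ⟨L, hL, hKL, hLΩ⟩ := exists_compact_between hφ.cpt.isCompact hΩ hφ.sub
  have hLm : MeasurableSet L := hL.measurableSet
  have hint : interior L ⊆ L := interior_subset
  let T : Type := Finset ι ⊕ (Finset ι × Finset ι × Finset ι)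
  let f : T → E n → ℝ := fun t => match t with
    | Sum.inl S => vv v S
    | Sum.inr (S, A, B) => bb v S A B
  have hf : ∀ t, ∃ P N, HasLap Ω (f t) P N := by
    intro t
    match t with
    | Sum.inl S => exact vv_hasLap hn hΩ hv S
    | Sum.inr (S, A, B) => exact bb_hasLap hn hΩ hv S A B
  obtain ⟨ξ, d, l, hξ, hd, hlm, hli, hl⟩ := exists_dens hf hlp hln hL hLΩ
  have hδ : ∀ S, Dens (interior L) ξ (vv v S) (d (Sum.inl S)) := fun S => hd (Sum.inl S)
  have hβ : ∀ S A B, Dens (interior L) ξ (bb v S A B) (d (Sum.inr (S, A, B))) :=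
    fun S A B => hd (Sum.inr (S, A, B))
  have hpt := point_sys hn isOpen_interior v hv0 D hD htwo hδ hβ
  have huu : ∀ x, uu v x = 0 := by
    intro x
    obtain ⟨i, hi, -⟩ := htwo x x
    refine le_antisymm ?_ ?_
    · exact (Finset.inf'_le _ (Finset.mem_univ i)).trans (hD i x hi).le
    · exact Finset.le_inf' _ _ fun j _ => hv0 j x
  have hsing : ∀ i x, vv v {i} x = v i x := by
    intro i x
    rw [vv_eq v (Finset.singleton_nonempty i), huu, sub_zero]
    simp
  have hle : ∀ᵐ x ∂ξ, ∀ i, x ∈ interior L → l x ≤ d (Sum.inl {i}) x := by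
    refine ae_all_iff.2 fun i => ?_
    refine dens_le isOpen_interior hlm hli (hδ {i}).meas (hδ {i}).dint (fun ψ hψ hψ0 => ?_)
    rw [← hl ψ hψ, ← (hδ {i}).lap ψ hψ]
    refine (h i ψ (hψ.mono (hint.trans hLΩ)) hψ0).trans (le_of_eq ?_)
    refine integral_congr_ae (Eventually.of_forall fun x => ?_)
    simp only
    rw [hsing]
  have hφL : TestOn (interior L) φ := ⟨hφ.smooth, hφ.cpt, hKL⟩
  have h5 := hl φ hφL
  have h6 : ∫ x, φ x * l x ∂ξ ≤ 0 := by
    refine integral_nonpos_of_ae ?_
    filter_upwards [hpt, hle] with x h1 h2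
    by_cases hx : x ∈ interior L
    · obtain ⟨i, hi⟩ := h1 hx
      have h3 := h2 i hx
      simp only [Pi.zero_apply]
      exact mul_nonpos_of_nonneg_of_nonpos (hφ0 x) (by linarith)
    · simp only [Pi.zero_apply]
      rw [hφL.eq_zero hx, zero_mul]
  linarith

end Pool.Agent.Y315.RE
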