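import Pool.Agent.Y315.RE.Meet
import Pool.Agent.Helper486.TP.Harm

/-! # The meet of the harmonic measures of a set system -/

set_option autoImplicit false

open MeasureTheory Set Filter Topology Metric
open scoped InnerProductSpace Laplacian ENNReal

namespace Pool.Agent.Y315.RE

open Pool.Agent.Helper486.TP

variable {n : ℕ}

/-- the swept measures of a set system, no two points of which hit all the sets, have meet zero -/
theorem swept_sys (hn : 3 ≤ n) {ι : Type} [Fintype ι] [DecidableEq ι] (D : ι → Set (E n))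
    (htwo : ∀ p q : E n, ∃ i, p ∉ D i ∧ q ∉ D i)
    (a : ι → E n) (ha : ∀ i, a i ∈ D i) (ω : ι → Measure (E n))
    (hω : ∀ i, IsSwept (D i)ᶜ (a i) (ω i)) (κ : Measure (E n)) (hκle : ∀ i, κ ≤ ω i) : κ = 0 := by
  classical
  have hι : Nonempty ι := by
    obtain ⟨i, -⟩ := htwo 0 0
    exact ⟨i⟩
  have hn0 : 0 < n := by omega
  obtain ⟨i₀⟩ := hι
  have hι : Nonempty ι := ⟨i₀⟩
  have hfin : ∀ i, IsFiniteMeasure (ω i) := fun i => (hω i).finite
  obtain ⟨c, hc0, hc⟩ := newton_laplacian hn
  have hκfin : IsFiniteMeasure κ := isFiniteMeasure_of_le (ω i₀) (hκle i₀)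
  set Ω : Set (E n) := (Set.range a)ᶜ with hΩdef
  have hΩ : IsOpen Ω := (Set.finite_range a).isClosed.isOpen_compl
  let v : ι → E n → ℝ := fun i y => (newton (a i) y).toReal - (pot (ω i) y).toReal
  have hv : ∀ i, LocallyIntegrableOn (v i) Ω := fun i =>
    locInt_of_compact fun K hK => (newton_locIntegrable hn (a i) K hK).sub
      (pot_locIntegrable hn (ω i) K hK)
  have hv0 : ∀ i, ∀ᵐ x ∂(volume : Measure (E n)), 0 ≤ v i x := by
    intro i
    filter_upwards [ae_ne hn (a i)] with x hx
    exact sub_nonneg.2 (ENNReal.toReal_mono (newton_ne_top hn hx) ((hω i).le hn x))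
  have hvz : ∀ i, ∀ᵐ x ∂(volume : Measure (E n)), x ∉ D i → v i x = 0 := by
    intro i
    filter_upwards [(hω i).eq hn] with x hx hxD
    have := hx hxD
    simp only [v, this, sub_self]
  have hfo : ∀ (μ : Measure (E n)) [IsFiniteMeasure μ], FinOn Ω μ :=
    fun μ _ K _ _ => measure_lt_top μ K
  have hfs : ∀ μ : Measure (E n), IsFiniteMeasure μ → IsFiniteMeasure (ENNReal.ofReal c • μ) := by
    intro μ hμ
    exact ⟨by
      rw [Measure.smul_apply, smul_eq_mul]
      exact ENNReal.mul_lt_top ENNReal.ofReal_lt_top (measure_lt_top _ _)⟩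
  have hf1 := hfs κ hκfin
  have hf2 := fun i => hfs (ω i) (hfin i)
  have hlap : ∀ i, HasLap Ω (v i) (ENNReal.ofReal c • ω i) 0 := by
    intro i
    refine ⟨hv i, hfo _, finOn_zero, fun φ hφ => ?_⟩
    have h0 : φ (a i) = 0 := hφ.eq_zero (by simp [hΩdef])
    have h1 := hc φ hφ.smooth hφ.cpt (a i)
    have h2 := pot_laplacian hn (ω i) hc hφ.smooth hφ.cpt
    rw [h0, mul_zero] at h1
    rw [integral_zero_measure, sub_zero, integral_smul_measure, ENNReal.toReal_ofReal hc0.le,
      smul_eq_mul]
    have h3 : ∫ x, v i x * (Δ φ) x = (∫ x, (newton (a i) x).toReal * (Δ φ) x) -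
        ∫ x, (pot (ω i) x).toReal * (Δ φ) x := by
      rw [← integral_sub (hφ.integrable_lap_loc (locInt_of_compact fun K hK =>
        newton_locIntegrable hn (a i) K hK)) (hφ.integrable_lap_loc (locInt_of_compact
        fun K hK => pot_locIntegrable hn (ω i) K hK))]
      exact integral_congr_ae (Eventually.of_forall fun x => by simp only [v]; ring)
    rw [h3, h1, h2]; ring
  -- a version which is nonnegative and vanishes off `D i` everywhere
  let v' : ι → E n → ℝ := fun i x => if x ∈ D i then |v i x| else 0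
  have hvv' : ∀ i, ∀ᵐ x ∂(volume : Measure (E n)), v i x = v' i x := by
    intro i
    filter_upwards [hv0 i, hvz i] with x h1 h2
    simp only [v']
    split_ifs with hx
    · rw [abs_of_nonneg h1]
    · exact h2 hx
  have hlap' : ∀ i, HasLap Ω (v' i) (ENNReal.ofReal c • ω i) 0 := fun i =>
    (hlap i).congr hΩ.measurableSet (by filter_upwards [hvv' i] with x hx _ using hx)
  have key := meet_sys hn0 hΩ (v := v') (fun i => ⟨_, _, hlap' i⟩)
    (fun i x => by simp only [v']; split_ifs; exacts [abs_nonneg _, le_rfl]) D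
    (fun i x hx => by simp only [v']; rw [if_neg hx]) htwo
    (lp := ENNReal.ofReal c • κ) (ln := 0) (hfo _) finOn_zero
    (fun i φ hφ hφ0 => by
      rw [(hlap' i).lap φ hφ]
      simp only [integral_zero_measure, sub_zero]
      refine integral_mono_measure ?_ (Eventually.of_forall hφ0) (hφ.integrable _)
      refine Measure.le_iff.2 fun s hs => ?_
      rw [Measure.smul_apply, Measure.smul_apply, smul_eq_mul, smul_eq_mul]
      gcongr
      exact hκle i)
  have hκΩ : κ Ω = 0 := by
    have h1 : (ENNReal.ofReal c • κ) Ω ≤ (0 : Measure (E n)) Ω :=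
      le_of_test hΩ key hΩ.measurableSet subset_rfl
    rw [Measure.smul_apply, smul_eq_mul, Measure.coe_zero, Pi.zero_apply, nonpos_iff_eq_zero,
      mul_eq_zero] at h1
    rcases h1 with h | h
    · exact absurd (ENNReal.ofReal_eq_zero.1 h) (not_le.2 hc0)
    · exact h
  have hκa : ∀ i, κ {a i} = 0 := by
    intro i
    obtain ⟨j, hj, -⟩ := htwo (a i) (a i)
    have hne : a j ≠ a i := fun h => hj (h ▸ ha j)
    exact le_antisymm ((hκle j {a i}).trans ((hω j).singleton hn hne).le) bot_le
  have hκr : κ (Set.range a) = 0 := by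
    rw [← Set.iUnion_singleton_eq_range]
    exact measure_iUnion_null hκa
  refine Measure.measure_univ_eq_zero.1 ?_
  rw [← Set.union_compl_self (Set.range a)]
  exact measure_union_null hκr hκΩ

end Pool.Agent.Y315.RE
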